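import Pool.Agent.Z15.J.Chow

/-!
Chow groups of projective varieties defined by systems of forms, in terms of function fields.
-/

set_option autoImplicit false

open FF MvPolynomial Pool.Agent.Z15.H Pool.Agent.Z15.Chow

namespace Pool.Agent.Z15.ChowS

variable (K : Type) [Field K] {ι α : Type}

/-- The cycles of dimension `l` on the projective variety `F a = 0` (for all `a`) over `K` which are
rationally equivalent to zero: the group generated by the push-forwards of the divisors of rational
functions `h ≠ 0` on varieties of dimension `l + 1`, with function field `M`, which map to the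
variety. -/
noncomputable def Rat (l : ℕ) (F : α → MvPolynomial ι K) :
    AddSubgroup (Set (MvPolynomial ι K) →₀ ℤ) :=
  AddSubgroup.closure {D | ∃ (M : Type) (_ : Field M) (_ : Algebra K M) (Q : ι → M) (h : M),
    Algebra.EssFiniteType K M ∧ Algebra.trdeg K M = (l + 1 : ℕ) ∧ Q ≠ 0 ∧ (∀ a, aeval Q (F a) = 0) ∧
      h ≠ 0 ∧ IsDivisor l Q h D}

/-- The group of cycles of dimension `l` on the projective variety `F a = 0` (for all `a`) over the
field `K`: it is generated by the images of varieties of dimension `l` with function field `E` under the
rational maps with homogeneous coordinates `P` to the variety. -/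
noncomputable def Cycles (l : ℕ) (F : α → MvPolynomial ι K) :
    AddSubgroup (Set (MvPolynomial ι K) →₀ ℤ) :=
  AddSubgroup.closure {c | ∃ (E : Type) (_ : Field E) (_ : Algebra K E) (P : ι → E),
    Algebra.trdeg K E = l ∧ P ≠ 0 ∧ (∀ a, aeval P (F a) = 0) ∧ c = cyc K P}

/-- Up to torsion, every cycle of dimension `l` on the projective variety `F a = 0` (for all `a`) over
the field `K` is rationally equivalent to a multiple of the cycle `c`. -/
def GeneratedBy (l : ℕ) (F : α → MvPolynomial ι K) (c : Set (MvPolynomial ι K) →₀ ℤ) : Prop :=
  ∀ Z ∈ Cycles K l F, ∃ (N : ℕ) (m : ℤ), 0 < N ∧ N • Z - m • c ∈ Rat K l F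

end Pool.Agent.Z15.ChowS
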