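import Pool.Agent.Z15.S.Defs
import Pool.Agent.Z15.S.ChowS
import Pool.Agent.Z15.J.Final2

/-!
Comparison of the definitions.
-/

set_option autoImplicit false
set_option linter.all false

open FF MvPolynomial Pool.Agent.Z15.H Pool.Agent.Z15.J Pool.Agent.Z15.J.Stm Pool.Agent.Z15.S

namespace Pool.Agent.Z15.ChowS

open Pool.Agent.Z15.Chow (isReduction_red)

theorem rats_le (K : Type) [Field K] {ι α : Type} (l : ℕ) (F : α → MvPolynomial ι K) :
    RatS K l F ≤ Rat K l F := by
  refine (AddSubgroup.closure_le _).2 ?_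
  rintro D ⟨M, _, _, Q, h, hM, hQ, hQF, hh, T, R, hR, hT, rfl⟩
  classical
  refine AddSubgroup.subset_closure ⟨M, inferInstance, inferInstance, Q, h, hM.1, hM.2, hQ, hQF, hh,
    T, fun v => if Algebra.trdeg K v.RF = l then cyc K (R v) else 0, fun v => ?_, fun v => ?_, ?_⟩
  · obtain ⟨h0, c, hc, h1⟩ := hR v
    have h2 : (fun i => v.red (c * Q i)) = R v := funext fun i => (h1 i).2
    refine ⟨v.RF, inferInstance, inferInstance, v.red, c, isReduction_red v, hc, fun i => (h1 i).1,
      by rw [h2]; exact h0, ?_⟩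
    by_cases h3 : Algebra.trdeg K v.RF = l
    · left
      refine ⟨h3, ?_⟩
      rw [h2]
      exact if_pos h3
    · right
      exact ⟨h3, if_neg h3⟩
  · rw [hT]
    constructor
    · rintro ⟨h1, h2, h3⟩
      exact ⟨h2, by simp only [if_pos h1]; exact h3⟩
    · rintro ⟨h1, h2⟩
      by_cases h3 : Algebra.trdeg K v.RF = l
      · simp only [if_pos h3] at h2
        exact ⟨h3, h1, h2⟩
      · simp only [if_neg h3] at h2
        exact absurd rfl h2
  · refine Finset.sum_congr rfl fun v hv => ?_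
    simp only [if_pos ((hT v).1 hv).1]

theorem of_mult {K : Type} [Field K] {ι α : Type} {F : α → MvPolynomial ι K} {l : ℕ}
    {c : Set (MvPolynomial ι K) →₀ ℤ}
    (h : ∀ (E : Type) [Field E] [Algebra K E] (P : ι → E), Algebra.trdeg K E = l → P ≠ 0 →
      (∀ a, aeval P (F a) = 0) → cyc K P ∈ Mult (RatS K l F) c) : GeneratedBy K l F c := by
  intro Z hZ
  have h1 : Z ∈ Mult (RatS K l F) c := by
    refine (AddSubgroup.closure_le _).2 ?_ hZ
    rintro c ⟨E, _, _, P, h1, h2, h3, rfl⟩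
    exact h E P h1 h2 h3
  obtain ⟨N, hN, m, h2⟩ := h1
  exact ⟨N, m, hN, rats_le K l _ h2⟩

end Pool.Agent.Z15.ChowS
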