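import Pool.Agent.Z15.S.Pen

/-!
Lines through a fixed point `z` with support in `X`.
-/

set_option autoImplicit false

open FF MvPolynomial Pool.Agent.Z15.H Pool.Agent.Z15.J Pool.Agent.Z15.J.Stm

namespace Pool.Agent.Z15.S

open Pool.Agent.T2h62.J15 (Vanish.span li_map)
open Pool.Agent.T2h62.H15 (li_iff li_of_minor exists_minor)

section

variable {K : Type} [Field K] [CharZero K] {ι α : Type} [Fintype ι]

/-- a field of transcendence degree zero over which a line has a nonzero class is finite -/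
theorem fin_of_gen (hCYC : T_CYC2) {κ : Type} [Field κ] [Algebra K κ]
    (htr : Algebra.trdeg K κ = 0) {z B : ι → κ} (h : cyc K (gen z B) ≠ 0) :
    FiniteDimensional K κ := by
  have halg : Algebra.IsAlgebraic K κ := by
    rw [← trdeg_eq_zero_iff, htr]
  let S : Set κ := Set.range z ∪ Set.range B
  have hSfin : S.Finite := (Set.finite_range z).union (Set.finite_range B)
  let κ0 : IntermediateField K κ := IntermediateField.adjoin K S
  have hfin : FiniteDimensional K κ0 := by
    have := hSfin.to_subtype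
    apply IntermediateField.finiteDimensional_adjoin
    intro x _
    exact (Algebra.IsAlgebraic.isAlgebraic x).isIntegral
  have h1 := (hCYC K ι κ0).2.2.2.2.1 κ
    (fun i => ⟨z i, IntermediateField.subset_adjoin _ _ (Or.inl ⟨i, rfl⟩)⟩)
    (fun i => ⟨B i, IntermediateField.subset_adjoin _ _ (Or.inr ⟨i, rfl⟩)⟩)
  have h2 : Module.finrank κ0 κ ≠ 0 := by
    intro h0
    rw [h0, zero_smul] at h1
    exact h h1
  have h3 : FiniteDimensional κ0 κ := Module.finite_of_finrank_pos (Nat.pos_of_ne_zero h2)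
  exact FiniteDimensional.trans K κ0 κ

omit [CharZero K] [Fintype ι] in
theorem Mult.nsmul_self {A : Type} [AddCommGroup A] {R : AddSubgroup A} {c0 c c1 : A} {n : ℕ}
    (hn : 0 < n) (h : n • c ∈ Mult R c1) (h1 : c1 = n • c0) : c ∈ Mult R c0 := by
  refine Mult.of_nsmul hn (Mult.trans h ?_)
  rw [h1]
  exact nsmul_mem Mult.self n

/-- families of lines through `z` -/
theorem famS (hUA : S_UA) (hWD : T_WD) (hCO : S_CO) (hMIX : S_MIX) (hPEN : S_PEN) [Fintype α]
    {F : α → MvPolynomial ι K} {d m : α → ℕ} {X Y : Finset ι} (hF : ∀ a, (F a).IsHomogeneous (d a))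
    (hm : ∀ a, m a < d a) (hXY : Disjoint X Y) (hMix : ∀ a, Mix (F a) X Y (m a))
    (hY : ∑ a, ∑ i ∈ Finset.range (m a + 1), (d a - i) ≤ Y.card)
    {κ : Type} [Field κ] [Algebra K κ] [FiniteDimensional K κ] {z C : ι → κ} (hz : Supp X z)
    (hz0 : z ≠ 0) (hC : ∃ i ∉ Y, ∃ j ∉ Y, z i * C j - z j * C i ≠ 0)
    (hco : ∀ a, ∀ j, j + m a < d a → co (F a) z C j = 0)
    {y y' : ι → κ} {v v' : κ} (hy : Supp Y y) (hy' : Supp Y y') (h0 : y ≠ 0 ∨ v ≠ 0)
    (h0' : y' ≠ 0 ∨ v' ≠ 0) (hV : ∀ a, Vanish (F a) z (fun i => v * C i + y i))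
    (hV' : ∀ a, Vanish (F a) z (fun i => v' * C i + y' i)) :
    cyc K (gen z (fun i => v * C i + y i)) ∈
      Mult (RatS K 1 F) (cyc K (gen z (fun i => v' * C i + y' i))) := by
  classical
  have hcκ : CharZero κ := charZero_of_injective_algebraMap (algebraMap K κ).injective
  -- the linear map
  obtain ⟨φ, hφ⟩ : ∃ φ : {i // i ∈ Y} ⊕ Unit → ι → κ,
    φ = Sum.elim (fun b => (Pi.single b.1 1 : ι → κ)) (fun _ => C) := ⟨_, rfl⟩
  have hlm : ∀ (κ' : Type) [Field κ'] [Algebra κ κ'] (e : {i // i ∈ Y} ⊕ Unit → κ'),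
      lm φ e = fun i => e (Sum.inr ()) * algebraMap κ κ' (C i) +
        (if h : i ∈ Y then e (Sum.inl ⟨i, h⟩) else 0) := by
    intro κ' _ _ e
    funext i
    unfold lm
    rw [hφ, Fintype.sum_sum_type, add_comm]
    simp only [Finset.univ_unique, PUnit.default_eq_unit, Finset.sum_singleton, Sum.elim_inr,
      Sum.elim_inl]
    congr 1
    split_ifs with h
    · rw [Finset.sum_eq_single ⟨i, h⟩]
      · rw [Pi.single_eq_same, map_one, mul_one]
      · rintro ⟨b, hb⟩ _ hne
        have h1 : i ≠ b := fun h2 => hne (Subtype.ext h2.symm)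
        rw [Pi.single_eq_of_ne h1, map_zero, mul_zero]
      · intro h1
        exact absurd (Finset.mem_univ _) h1
    · refine Finset.sum_eq_zero fun b _ => ?_
      have h1 : i ≠ b.1 := fun h2 => h (h2 ▸ b.2)
      rw [Pi.single_eq_of_ne h1, map_zero, mul_zero]
  -- the equations
  choose Hc hHc1 hHc2 using fun (x : Σ a, Fin (m a + 1)) =>
    (hCO K ι (F x.1) (d x.1) (hF x.1)).2.2.2.2.2.2 κ ({i // i ∈ Y} ⊕ Unit) z φ (d x.1 - x.2)
  have hH : ∀ (κ' : Type) [Field κ'] [Algebra κ κ'] [Algebra K κ'] [IsScalarTower K κ κ']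
      (e : {i // i ∈ Y} ⊕ Unit → κ') (x : Σ a, Fin (m a + 1)),
      aeval e (Hc x) = co (F x.1) (cst κ' z) (lm φ e) (d x.1 - x.2) := by
    intro κ' _ _ _ _ e x
    exact hHc2 x κ' e
  have hgood : GoodS F Hc z φ := by
    refine ⟨fun κ' _ _ e he _ => ?_, fun κ' _ _ _ _ e he a => ?_⟩
    · rw [hlm]
      by_cases hv : e (Sum.inr ()) = 0
      · obtain ⟨b, hb⟩ : ∃ b, e (Sum.inl b) ≠ 0 := by
          by_contra h
          push Not at h
          apply he
          funext x
          rcases x with b | u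
          · exact h b
          · exact hv
        obtain ⟨i, hi⟩ : ∃ i, z i ≠ 0 := by
          by_contra h
          push Not at h
          exact hz0 (funext h)
        have hzb : z b.1 = 0 := hz b.1 (fun h => Finset.disjoint_left.1 hXY h b.2)
        refine li_of_minor (i := i) (j := b.1) ?_
        simp only [cst, hv, zero_mul, zero_add, hzb, map_zero, sub_zero, b.2, dite_true]
        exact mul_ne_zero ((map_ne_zero _).2 hi) hb
      · obtain ⟨i, hi, j, hj, hij⟩ := hC
        refine li_of_minor (i := i) (j := j) ?_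
        simp only [cst, hi, hj, dite_false, add_zero]
        have h1 : algebraMap κ κ' (z i) * (e (Sum.inr ()) * algebraMap κ κ' (C j)) -
            algebraMap κ κ' (z j) * (e (Sum.inr ()) * algebraMap κ κ' (C i)) =
            e (Sum.inr ()) * algebraMap κ κ' (z i * C j - z j * C i) := by
          rw [map_sub, map_mul, map_mul]
          ring
        rw [h1]
        exact mul_ne_zero hv ((map_ne_zero _).2 hij)
    · obtain ⟨-, h2, -, h4, h5, -⟩ := hCO K ι (F a) (d a) (hF a)
      rw [h2]
      intro j hj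
      by_cases hjm : j + m a < d a
      · have hsz : Supp X (cst κ' z) := fun i hi => by
          unfold cst
          rw [hz i hi, map_zero]
        have hsy : Supp Y (fun i => if h : i ∈ Y then e (Sum.inl ⟨i, h⟩) else 0) := fun i hi => by
          simp only [hi, dite_false]
        rw [hlm, hMIX K ι (F a) (d a) (m a) X Y (hF a) hXY (hMix a) κ' (cst κ' z)
          (fun i => e (Sum.inr ()) * algebraMap κ κ' (C i)) _ hsz hsy j hjm, (h5 κ' _ _ _ j hj).1]
        have h6 := h4 κ κ' (IsScalarTower.toAlgHom K κ κ') z C j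
        have h7 : co (F a) (cst κ' z) (fun i => algebraMap κ κ' (C i)) j =
            algebraMap κ κ' (co (F a) z C j) := h6
        rw [h7, hco a j hjm, map_zero, mul_zero]
      · have h6 := hH κ' e ⟨a, ⟨d a - j, by omega⟩⟩
        simp only at h6
        have h7 : d a - (d a - j) = j := by omega
        rw [h7, he] at h6
        exact h6.symm
  obtain ⟨Φ, hΦ⟩ := hWD K κ ι ({i // i ∈ Y} ⊕ Unit) z φ hz0
  -- the points
  have hpt : ∀ (y : ι → κ) (v : κ), Supp Y y →
      lm φ (Sum.elim (fun b : {i // i ∈ Y} => y b.1) (fun _ => v)) = fun i => v * C i + y i := by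
    intro y v hy
    rw [hlm]
    funext i
    simp only [Sum.elim_inr, Sum.elim_inl, Algebra.algebraMap_self, RingHom.id_apply]
    split_ifs with h
    · rfl
    · rw [hy i h]
  have hne : ∀ (y : ι → κ) (v : κ), Supp Y y → (y ≠ 0 ∨ v ≠ 0) →
      (Sum.elim (fun b : {i // i ∈ Y} => y b.1) (fun _ : Unit => v)) ≠ 0 := by
    intro y v hy h h1
    rcases h with h | h
    · apply h
      funext i
      by_cases hi : i ∈ Y
      · exact congrFun h1 (Sum.inl ⟨i, hi⟩)
      · exact hy i hi
    · exact h (congrFun h1 (Sum.inr ()))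
  have heq : ∀ (y : ι → κ) (v : κ), Supp Y y → (∀ a, Vanish (F a) z (fun i => v * C i + y i)) →
      ∀ x, aeval (Sum.elim (fun b : {i // i ∈ Y} => y b.1) (fun _ : Unit => v)) (Hc x) = 0 := by
    intro y v hy hV x
    rw [hH κ _ x, hpt y v hy]
    have h1 := (hCO K ι (F x.1) (d x.1) (hF x.1)).2.1 κ z (fun i => v * C i + y i)
    exact h1.1 (hV x.1) _ (Nat.sub_le _ _)
  have hcyc : ∀ (y : ι → κ) (v : κ), Supp Y y → (y ≠ 0 ∨ v ≠ 0) →
      Φ (cyc κ (Sum.elim (fun b : {i // i ∈ Y} => y b.1) (fun _ : Unit => v))) =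
        cyc K (gen z (fun i => v * C i + y i)) := by
    intro y v hy h
    rw [hΦ κ _ (hne y v hy h), hpt y v hy]
    rfl
  obtain ⟨N, hN, n, hrat⟩ := hPEN κ ({i // i ∈ Y} ⊕ Unit) (Σ a, Fin (m a + 1)) Hc
    (fun x => d x.1 - x.2) (by
      rintro ⟨a, i⟩
      have := hm a
      have := i.2
      simp only
      omega) hHc1 (by
      rw [Fintype.card_sum, Fintype.card_coe, Fintype.card_unit]
      refine Nat.add_le_add_right (le_trans (le_of_eq ?_) hY) 1
      rw [Fintype.sum_sigma]
      refine Finset.sum_congr rfl fun a _ => ?_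
      exact Fin.sum_univ_eq_sum_range (fun i => d a - i) (m a + 1))
    _ (hne y' v' hy' h0') (by
      intro x
      have h1 := heq y' v' hy' hV' x
      rw [← MvPolynomial.coe_aeval_eq_eval]
      exact h1)
    κ (Sum.elim (fun b : {i // i ∈ Y} => y b.1) (fun _ : Unit => v)) trdeg_eq_zero (hne y v hy h0)
    (heq y v hy hV)
  have hfg : IsFG 0 K κ := ⟨inferInstance, by rw [trdeg_eq_zero, Nat.cast_zero]⟩
  have h1 := hUA K κ ι ({i // i ∈ Y} ⊕ Unit) α (Σ a, Fin (m a + 1)) 0 hfg F Hc _ hHc1 z φ hz0 hgood Φ hΦ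
    _ hrat
  rw [map_sub, map_nsmul, map_zsmul, hcyc y v hy h0, hcyc y' v' hy' h0'] at h1
  exact ⟨N, hN, n, h1⟩

omit [CharZero K] [Fintype ι] in
theorem Vanish.ext {F : MvPolynomial ι K} {κ κ' : Type} [Field κ] [Algebra K κ] [Field κ']
    [Algebra κ κ'] [Algebra K κ'] [IsScalarTower K κ κ'] {A B : ι → κ} (h : Vanish F A B) :
    Vanish F (fun i => algebraMap κ κ' (A i)) (fun i => algebraMap κ κ' (B i)) := by
  intro M _ _ _ _ x y
  let _ : Algebra κ M := ((algebraMap κ' M).comp (algebraMap κ κ')).toAlgebra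
  have t1 : IsScalarTower κ κ' M := IsScalarTower.of_algebraMap_eq fun _ => rfl
  have t2 : IsScalarTower K κ M := IsScalarTower.of_algebraMap_eq fun a => by
    rw [IsScalarTower.algebraMap_apply K κ' M, IsScalarTower.algebraMap_apply K κ κ',
      ← IsScalarTower.algebraMap_apply κ κ' M]
  have h1 := h M x y
  simp only [← IsScalarTower.algebraMap_apply κ κ' M]
  exact h1

end

theorem t_L1i : S_L1i := by
  intro hUA hWD hCYC hCO hSOLVE hMIX hPEN K _ _ ι α _ _ _ F d m X Y hF hm hXY hMix hX hY κ _ _ htr z B u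
    hz hu hu0 hli hVB hVu
  classical
  by_cases hc0 : cyc K (gen z B) = 0
  · rw [hc0]; exact zero_mem _
  have hfin : FiniteDimensional K κ := fin_of_gen hCYC htr hc0
  have hcκ : CharZero κ := charZero_of_injective_algebraMap (algebraMap K κ).injective
  have hz0 : z ≠ 0 := by
    intro h0
    refine one_ne_zero ((li_iff.1 hli) 1 0 ?_).1
    rw [h0, smul_zero, zero_smul, add_zero]
  have hcoB : ∀ a, ∀ j ≤ d a, co (F a) z B j = 0 := fun a =>
    ((hCO K ι (F a) (d a) (hF a)).2.1 κ z B).1 (hVB a)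
  by_cases hC : ∃ i ∉ Y, ∃ j ∉ Y, z i * B j - z j * B i ≠ 0
  · -- case A
    have hVB' : ∀ a, Vanish (F a) z (fun i => 1 * B i + (0 : ι → κ) i) := by
      intro a
      have h1 : (fun i => 1 * B i + (0 : ι → κ) i) = B := by
        funext i
        rw [one_mul, Pi.zero_apply, add_zero]
      rw [h1]
      exact hVB a
    have hVu' : ∀ a, Vanish (F a) z (fun i => 0 * B i + u i) := by
      intro a
      have h1 : (fun i => 0 * B i + u i) = u := by
        funext i
        rw [zero_mul, zero_add]
      rw [h1]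
      exact hVu a
    have h1 := famS hUA hWD hCO hMIX hPEN hF hm hXY hMix hY hz hz0 hC
      (fun a j hj => hcoB a j (by omega)) (y := 0) (y' := u) (v := 1) (v' := 0) (fun i _ => rfl) hu
      (Or.inr one_ne_zero) (Or.inl hu0) hVB' hVu'
    have h2 : (fun i => 1 * B i + (0 : ι → κ) i) = B := by
      funext i
      rw [one_mul, Pi.zero_apply, add_zero]
    have h3 : (fun i => 0 * B i + u i) = u := by
      funext i
      rw [zero_mul, zero_add]
    rwa [h2, h3] at h1
  · -- case B
    push Not at hC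
    obtain ⟨i0, hi0⟩ : ∃ i, z i ≠ 0 := by
      by_contra h
      push Not at h
      exact hz0 (funext h)
    have hXmem : ∀ i, z i ≠ 0 → i ∈ X := fun i hi => by
      by_contra h
      exact hi (hz i h)
    have hi0X := hXmem i0 hi0
    have hi0Y : i0 ∉ Y := Finset.disjoint_left.1 hXY hi0X
    obtain ⟨y, hy⟩ : ∃ y : ι → κ, y = fun i => B i - B i0 / z i0 * z i := ⟨_, rfl⟩
    have hyY : Supp Y y := by
      intro i hi
      have h1 := hC i0 hi0Y i hi
      rw [hy]
      field_simp
      linear_combination h1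
    have hy0 : y ≠ 0 := by
      intro h0
      refine one_ne_zero ((li_iff.1 hli) (-(B i0 / z i0)) 1 ?_).2
      funext i
      have h1 := congrFun h0 i
      rw [hy] at h1
      simp only [Pi.zero_apply] at h1
      simp only [Pi.add_apply, Pi.smul_apply, smul_eq_mul, Pi.zero_apply]
      linear_combination h1
    obtain ⟨j0, hj0⟩ : ∃ j, y j ≠ 0 := by
      by_contra h
      push Not at h
      exact hy0 (funext h)
    have hj0Y : j0 ∈ Y := by
      by_contra h
      exact hj0 (hyY j0 h)
    have hzj0 : z j0 = 0 := hz j0 (fun h => Finset.disjoint_left.1 hXY h hj0Y)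
    have hliy : LinearIndependent κ ![z, y] := by
      refine li_of_minor (i := i0) (j := j0) ?_
      rw [hzj0, zero_mul, sub_zero]
      exact mul_ne_zero hi0 hj0
    have hymem : y ∈ Submodule.span κ {z, B} := by
      rw [Submodule.mem_span_pair]
      refine ⟨-(B i0 / z i0), 1, ?_⟩
      funext i
      rw [hy]
      simp only [Pi.add_apply, Pi.smul_apply, smul_eq_mul]
      ring
    have hzmem : z ∈ Submodule.span κ {z, B} := Submodule.subset_span (by simp)
    have hcy : cyc K (gen z y) = cyc K (gen z B) :=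
      (hCYC K ι κ).2.2.2.2.2.2.1 z B z y hli hliy hzmem hymem
    have hVy : ∀ a, Vanish (F a) z y := fun a => Vanish.span (hVB a) hzmem hymem
    -- another direction
    obtain ⟨κ', _, _, _, _, w, hfin', hw0, hwX, hw⟩ := hSOLVE K κ ι (Σ a, Fin (d a - m a - 1))
      (fun x => F x.1) (fun x => d x.1) (fun x => hF x.1) (fun _ => z) (fun x => x.2 + 1) (by
        rintro ⟨a, i⟩
        have := i.2
        simp only
        omega) (X.erase i0) (by
        rw [Fintype.card_sigma, Finset.card_erase_of_mem hi0X]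
        simp only [Fintype.card_fin]
        have h1 : ∑ a, (d a - m a - 1) + Fintype.card α ≤ ∑ a, d a := by
          rw [Fintype.card_eq_sum_ones, ← Finset.sum_add_distrib]
          exact Finset.sum_le_sum fun a _ => by have := hm a; omega
        have h2 : 0 < Fintype.card α := Fintype.card_pos
        omega)
    have hfinK : FiniteDimensional K κ' := FiniteDimensional.trans K κ κ'
    obtain ⟨l0, hl0⟩ : ∃ l, w l ≠ 0 := by
      by_contra h
      push Not at h
      exact hw0 (funext h)
    have hl0X : l0 ∈ X.erase i0 := by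
      by_contra h
      exact hl0 (hwX l0 h)
    have hwi0 : w i0 = 0 := hwX i0 (Finset.notMem_erase _ _)
    obtain ⟨z', hz'⟩ : ∃ z' : ι → κ', z' = fun i => algebraMap κ κ' (z i) := ⟨_, rfl⟩
    obtain ⟨y', hy'⟩ : ∃ y' : ι → κ', y' = fun i => algebraMap κ κ' (y i) := ⟨_, rfl⟩
    obtain ⟨u', hu'⟩ : ∃ u' : ι → κ', u' = fun i => algebraMap κ κ' (u i) := ⟨_, rfl⟩
    have hmap0 : ∀ x : ι → κ, x ≠ 0 → (fun i => algebraMap κ κ' (x i)) ≠ 0 := by
      intro x hx h0
      apply hx
      funext i
      exact (map_eq_zero _).1 (congrFun h0 i)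
    have hsupp : ∀ (S : Finset ι) (x : ι → κ), Supp S x → Supp S (fun i => algebraMap κ κ' (x i)) := by
      intro S x hx i hi
      simp only
      rw [hx i hi, map_zero]
    have hVy' : ∀ a, Vanish (F a) z' (fun i => 0 * w i + y' i) := by
      intro a
      have h1 : (fun i => 0 * w i + y' i) = y' := by
        funext i
        rw [zero_mul, zero_add]
      rw [h1, hz', hy']
      exact Vanish.ext (hVy a)
    have hVu' : ∀ a, Vanish (F a) z' (fun i => 0 * w i + u' i) := by
      intro a
      have h1 : (fun i => 0 * w i + u' i) = u' := by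
        funext i
        rw [zero_mul, zero_add]
      rw [h1, hz', hu']
      exact Vanish.ext (hVu a)
    have h1 := famS hUA hWD hCO hMIX hPEN hF hm hXY hMix hY (z := z') (C := w)
      (by rw [hz']; exact hsupp X z hz) (by rw [hz']; exact hmap0 z hz0)
      ⟨i0, hi0Y, l0, Finset.disjoint_left.1 hXY (Finset.mem_of_mem_erase hl0X), by
        rw [hwi0, mul_zero, sub_zero, hz']
        exact mul_ne_zero ((map_ne_zero _).2 hi0) hl0⟩
      (fun a j hj => by
        rcases Nat.eq_zero_or_pos j with rfl | hj0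
        · have h2 := ((hCO K ι (F a) (d a) (hF a)).2.2.1 κ' z' w).1
          have h3 := ((hCO K ι (F a) (d a) (hF a)).2.2.1 κ z B).1
          rw [h2, hz']
          have h4 : aeval (fun i => algebraMap κ κ' (z i)) (F a) = algebraMap κ κ' (aeval z (F a)) :=
            (comp_aeval_apply _ (IsScalarTower.toAlgHom K κ κ') (F a)).symm
          rw [h4, ← h3, hcoB a 0 (Nat.zero_le _), map_zero]
        · have h2 := hw ⟨a, ⟨j - 1, by omega⟩⟩
          simp only at h2
          have h3 : j - 1 + 1 = j := by omega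
          rw [h3] at h2
          rw [hz']
          exact h2)
      (y := y') (y' := u') (v := 0) (v' := 0) (by rw [hy']; exact hsupp Y y hyY)
      (by rw [hu']; exact hsupp Y u hu) (Or.inl (by rw [hy']; exact hmap0 y hy0))
      (Or.inl (by rw [hu']; exact hmap0 u hu0)) hVy' hVu'
    have h2 : (fun i => 0 * w i + y' i) = y' := by
      funext i
      rw [zero_mul, zero_add]
    have h3 : (fun i => 0 * w i + u' i) = u' := by
      funext i
      rw [zero_mul, zero_add]
    rw [h2, h3, hz', hy', hu', (hCYC K ι κ).2.2.2.2.1 κ' z y, (hCYC K ι κ).2.2.2.2.1 κ' z u] at h1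
    have h4 := Mult.nsmul_self (n := Module.finrank κ κ') Module.finrank_pos h1 rfl
    rw [hcy] at h4
    exact h4

end Pool.Agent.Z15.S
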