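import Pool.Agent.Z15.D2
import Pool.Agent.Z15.S.C

/-!
A rational curve through a general point of a cyclic covering.
-/

set_option autoImplicit false
set_option linter.all false

open FF Polynomial Pool.Agent.W603.LV Pool.Agent.W602.GT Pool.Agent.N162.BC

namespace Pool.Agent.Z15.S

/-- a function on the line with one zero and one pole -/
theorem exists_line2 {Ω : Type} [Field Ω] [CharZero Ω] (z0 z1 : Ω) (h01 : z0 ≠ z1) :
    ∃ (M : Type) (_ : Field M) (_ : Algebra Ω M) (_ : IsFF Ω M) (z : M) (v0 v1 : Place Ω M)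
      (f : M), Transcendental Ω z ∧ Val v0 z z0 ∧ Val v1 z z1 ∧ f ≠ 0 ∧ 0 < v0.ord f ∧
        ∀ v : Place Ω M, v ≠ v0 → v.ord f ≠ 0 → v = v1 := by
  obtain ⟨M, c1, c2, c3, z, hz, hv⟩ := exists_line Ω
  obtain ⟨v0, hv0, hv0'⟩ := hv z0
  obtain ⟨v1, hv1, hv1'⟩ := hv z1
  have hz00 : z - algebraMap Ω M z0 ≠ 0 := by
    intro h
    rw [h, v0.ord_zero] at hv0
    exact absurd hv0 (by norm_num)
  have hz10 : z - algebraMap Ω M z1 ≠ 0 := by
    intro h
    rw [h, v1.ord_zero] at hv1
    exact absurd hv1 (by norm_num)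
  have hval0 : Val v0 z z0 := Or.inr hv0.ge
  have hval1 : Val v1 z z1 := Or.inr hv1.ge
  refine ⟨M, c1, c2, c3, z, v0, v1, (z - algebraMap Ω M z0) / (z - algebraMap Ω M z1), hz,
    hval0, hval1, div_ne_zero hz00 hz10, ?_, ?_⟩
  · rw [v0.ord_div hz00 hz10, hv0]
    have h1 := (hval0.sub (Val.const (v := v0) z1)).ord (sub_ne_zero.2 h01)
    rw [h1.2]
    norm_num
  · intro v hvne hvo
    rw [v.ord_div hz00 hz10] at hvo
    by_contra hne
    apply hvo
    have h0 : v.ord (z - algebraMap Ω M z0) ≤ 0 := by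
      by_contra h
      push Not at h
      exact hvne (hv0' v h)
    have h1 : v.ord (z - algebraMap Ω M z1) ≤ 0 := by
      by_contra h
      push Not at h
      exact hne (hv1' v h)
    have hc : algebraMap Ω M (z0 - z1) ≠ 0 := (_root_.map_ne_zero _).2 (sub_ne_zero.2 h01)
    have hco : v.ord (algebraMap Ω M (z0 - z1)) = 0 := v.ord_const (sub_ne_zero.2 h01)
    have e1 : z - algebraMap Ω M z1 = (z - algebraMap Ω M z0) + algebraMap Ω M (z0 - z1) := by
      rw [map_sub]
      ring
    have e2 : z - algebraMap Ω M z0 = (z - algebraMap Ω M z1) + -algebraMap Ω M (z0 - z1) := by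
      rw [map_sub]
      ring
    rcases lt_or_eq_of_le h0 with h2 | h2
    · have h3 := v.ord_add_eq hz00 hc (by rw [hco]; exact h2)
      rw [← e1] at h3
      rw [h3.2, sub_self]
    · rcases lt_or_eq_of_le h1 with h4 | h4
      · have h3 := v.ord_add_eq hz10 (neg_ne_zero.2 hc) (by rw [v.ord_neg, hco]; exact h4)
        rw [← e2] at h3
        rw [h3.2, sub_self]
      · rw [h2, h4, sub_self]

/-- Parametrisation of the cyclic coverings of the line with two branch points. -/
theorem exists_cyc {Ω : Type} [Field Ω] [CharZero Ω] [IsAlgClosed Ω] (q : ℕ) (α β a : Ω)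
    (ha : a ≠ 0) (hβ : α = β ∨ 1 + β * a ≠ 0) :
    ∃ (M : Type) (_ : Field M) (_ : Algebra Ω M) (_ : IsFF Ω M) (s w : M) (v0 v1 : Place Ω M)
      (f : M), w ^ (q + 2) = (1 + algebraMap Ω M α * s) * (1 + algebraMap Ω M β * s) ^ (q + 1) ∧
        Val v0 s 0 ∧ Val v0 w 1 ∧ Val v1 s a ∧ f ≠ 0 ∧ 0 < v0.ord f ∧
          ∀ v : Place Ω M, v ≠ v0 → v.ord f ≠ 0 → v = v1 := by
  by_cases hαβ : α = β
  · obtain ⟨M, c1, c2, c3, z, v0, v1, f, hz, h0, h1, hf0, hf, hfv⟩ := exists_line2 (Ω := Ω) 0 a ha.symm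
    refine ⟨M, c1, c2, c3, z, 1 + algebraMap Ω M β * z, v0, v1, f, ?_, h0, ?_, h1, hf0, hf, hfv⟩
    · rw [hαβ]
      ring
    · have h2 := (Val.const (v := v0) (1 : Ω)).add ((Val.const (v := v0) β).mul h0)
      rw [map_one, mul_zero, add_zero] at h2
      exact h2
  · have hβ' : 1 + β * a ≠ 0 := hβ.resolve_left hαβ
    obtain ⟨z1, hz1⟩ : ∃ z1 : Ω, z1 ^ (q + 2) = (1 + α * a) / (1 + β * a) :=
      IsAlgClosed.exists_pow_nat_eq _ (by omega)
    have hsub : α - β ≠ 0 := sub_ne_zero.2 hαβ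
    have hden1 : α - β * z1 ^ (q + 2) ≠ 0 := by
      rw [hz1]
      intro h0
      apply hsub
      field_simp at h0
      linear_combination h0
    have h01 : (1 : Ω) ≠ z1 := by
      rintro rfl
      rw [one_pow, eq_div_iff hβ'] at hz1
      have h2 : (α - β) * a = 0 := by linear_combination -hz1
      exact (mul_ne_zero hsub ha) h2
    obtain ⟨M, c1, c2, c3, z, v0, v1, f, hz, h0, h1, hf0, hf, hfv⟩ := exists_line2 1 z1 h01
    have hdz : algebraMap Ω M α - algebraMap Ω M β * z ^ (q + 2) ≠ 0 := by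
      intro h
      by_cases hb0 : β = 0
      · rw [hb0, map_zero, zero_mul, sub_zero] at h
        have h2 : α = 0 := by simpa using h
        exact hαβ (by rw [h2, hb0])
      · have h2 : IsAlgebraic Ω (z ^ (q + 2)) := by
          have hbm : algebraMap Ω M β ≠ 0 := (_root_.map_ne_zero _).2 hb0
          have h3 : z ^ (q + 2) = algebraMap Ω M (α / β) := by
            rw [map_div₀, eq_div_iff hbm]
            linear_combination -h
          rw [h3]
          exact isAlgebraic_algebraMap _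
        exact hz (h2.of_pow (by omega))
    refine ⟨M, c1, c2, c3, (z ^ (q + 2) - 1) / (algebraMap Ω M α - algebraMap Ω M β * z ^ (q + 2)),
      z * (algebraMap Ω M (α - β) / (algebraMap Ω M α - algebraMap Ω M β * z ^ (q + 2))), v0, v1, f,
        ?_, ?_, ?_, ?_, hf0, hf, hfv⟩
    · have e1 : 1 + algebraMap Ω M β * ((z ^ (q + 2) - 1) /
          (algebraMap Ω M α - algebraMap Ω M β * z ^ (q + 2))) =
            algebraMap Ω M (α - β) / (algebraMap Ω M α - algebraMap Ω M β * z ^ (q + 2)) := by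
        rw [map_sub, eq_div_iff hdz, add_mul, mul_assoc, div_mul_cancel₀ _ hdz]
        ring
      have e2 : 1 + algebraMap Ω M α * ((z ^ (q + 2) - 1) /
          (algebraMap Ω M α - algebraMap Ω M β * z ^ (q + 2))) = z ^ (q + 2) *
            (algebraMap Ω M (α - β) / (algebraMap Ω M α - algebraMap Ω M β * z ^ (q + 2))) := by
        rw [map_sub, ← mul_div_assoc (z ^ (q + 2)), eq_div_iff hdz, add_mul, mul_assoc,
          div_mul_cancel₀ _ hdz]
        ring
      rw [e1, e2, mul_pow, pow_succ _ (q + 1)]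
      ring
    · have h2 := ((h0.pow (q + 2)).sub (Val.const (v := v0) (1 : Ω))).div
        ((Val.const (v := v0) α).sub ((Val.const (v := v0) β).mul (h0.pow (q + 2))))
        (by rw [one_pow, mul_one]; exact hsub)
      rw [one_pow, sub_self, zero_div, map_one] at h2
      exact h2
    · have h2 := h0.mul ((Val.const (v := v0) (α - β)).div
        ((Val.const (v := v0) α).sub ((Val.const (v := v0) β).mul (h0.pow (q + 2))))
        (by rw [one_pow, mul_one]; exact hsub))
      rw [one_pow, mul_one, div_self hsub, one_mul] at h2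
      exact h2
    · have h2 := ((h1.pow (q + 2)).sub (Val.const (v := v1) (1 : Ω))).div
        ((Val.const (v := v1) α).sub ((Val.const (v := v1) β).mul (h1.pow (q + 2)))) hden1
      rw [map_one] at h2
      have h3 : (z1 ^ (q + 2) - 1) / (α - β * z1 ^ (q + 2)) = a := by
        have h4 : z1 ^ (q + 2) * (1 + β * a) = 1 + α * a := by rw [hz1, div_mul_cancel₀ _ hβ']
        rw [div_eq_iff hden1]
        linear_combination h4
      rwa [h3] at h2

section

variable {k : Type} [Field k] {n : ℕ} {A : Type} [CommRing A] [Algebra k A]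

/-- evaluation at `(t, x)` -/
noncomputable def ev1 (t : Fin n → A) (x : A) : (MvPolynomial (Fin n) k)[X] →+* A :=
  Polynomial.eval₂RingHom (MvPolynomial.aeval t : MvPolynomial (Fin n) k →ₐ[k] A).toRingHom x

/-- evaluation at `(t, x, y)` -/
noncomputable def ev2 (t : Fin n → A) (x y : A) : (MvPolynomial (Fin n) k)[X][X] →+* A :=
  Polynomial.eval₂RingHom (ev1 t x) y

theorem ev1_apply (t : Fin n → A) (x : A) (F : (MvPolynomial (Fin n) k)[X]) :
    ev1 t x F = evF F t x := rfl

theorem ev2_C (t : Fin n → A) (x y : A) (F : (MvPolynomial (Fin n) k)[X]) :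
    ev2 t x y (C F) = ev1 t x F := by
  unfold ev2
  rw [coe_eval₂RingHom, eval₂_C]

theorem ev2_X (t : Fin n → A) (x y : A) :
    ev2 t x y (X : (MvPolynomial (Fin n) k)[X][X]) = y := by
  unfold ev2
  rw [coe_eval₂RingHom, eval₂_X]

theorem ev1_C (t : Fin n → A) (x : A) (F : MvPolynomial (Fin n) k) :
    ev1 t x (C F) = MvPolynomial.aeval t F := by
  unfold ev1
  rw [coe_eval₂RingHom, eval₂_C]
  rfl

theorem ev1_X (t : Fin n → A) (x : A) : ev1 t x (X : (MvPolynomial (Fin n) k)[X]) = x := by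
  unfold ev1
  rw [coe_eval₂RingHom, eval₂_X]

end

theorem val_ev2 {k : Type} [Field k] {n : ℕ} {Ω M : Type} [Field Ω] [Algebra k Ω] [Field M]
    [Algebra Ω M] [Algebra k M] [IsScalarTower k Ω M] (v : Place Ω M) (t : Fin n → M) (x y : M)
    (T : Fin n → Ω) (X0 Y0 : Ω) (ht : ∀ i, Val v (t i) (T i)) (hx : Val v x X0)
    (hy : Val v y Y0) (P : (MvPolynomial (Fin n) k)[X][X]) :
    Val v (ev2 t x y P) (ev2 T X0 Y0 P) := by
  have h1 : ∀ p : MvPolynomial (Fin n) k, Val v (MvPolynomial.aeval t p) (MvPolynomial.aeval T p) := by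
    intro p
    induction p using MvPolynomial.induction_on with
    | C a =>
      rw [MvPolynomial.aeval_C, MvPolynomial.aeval_C, IsScalarTower.algebraMap_apply k Ω M]
      exact Val.const _
    | add p q hp hq =>
      rw [map_add, map_add]
      exact hp.add hq
    | mul_X p i hp =>
      rw [map_mul, map_mul, MvPolynomial.aeval_X, MvPolynomial.aeval_X]
      exact hp.mul (ht i)
  have h2 : ∀ p : (MvPolynomial (Fin n) k)[X], Val v (ev1 t x p) (ev1 T X0 p) := by
    intro p
    induction p using Polynomial.induction_on' with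
    | add p q hp hq =>
      rw [map_add, map_add]
      exact hp.add hq
    | monomial j a =>
      rw [← C_mul_X_pow_eq_monomial, map_mul, map_mul, map_pow, map_pow, ev1_C, ev1_C, ev1_X,
        ev1_X]
      exact (h1 a).mul (hx.pow j)
  induction P using Polynomial.induction_on' with
  | add p q hp hq =>
    rw [map_add, map_add]
    exact hp.add hq
  | monomial j a =>
    rw [← C_mul_X_pow_eq_monomial, map_mul, map_mul, map_pow, map_pow, ev2_C, ev2_C, ev2_X,
      ev2_X]
    exact (h2 a).mul (hy.pow j)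

theorem ev2_map {k : Type} [Field k] {n : ℕ} {A A' : Type} [CommRing A] [Algebra k A]
    [CommRing A'] [Algebra k A'] (φ : A →ₐ[k] A') (t : Fin n → A) (x y : A)
    (P : (MvPolynomial (Fin n) k)[X][X]) :
    φ (ev2 t x y P) = ev2 (fun i => φ (t i)) (φ x) (φ y) P := by
  induction P using Polynomial.induction_on' with
  | add p q hp hq => rw [map_add, map_add, map_add, hp, hq]
  | monomial j a =>
    rw [← C_mul_X_pow_eq_monomial, map_mul, map_mul, map_mul, map_pow, map_pow, map_pow, ev2_C,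
      ev2_C, ev2_X, ev2_X, ev1_apply, ev1_apply, evF_map]

/-- **A rational curve through a general point.** -/
theorem exists_curve {k : Type} [Field k] [Algebra ℂ k] {n m e q : ℕ}
    (F : (MvPolynomial (Fin n) k)[X]) (he : 0 < e) (hne : (q + 1) * e ≤ n + m)
    (hdeg : ∀ j, F.coeff j ≠ 0 → (F.coeff j).totalDegree + m * j ≤ (q + 2) * e)
    (h3 : q + 2 < (q + 1) * F.natDegree) {B Ω : Type} [Field B] [Algebra ℂ B] [Algebra k B]
    [IsScalarTower ℂ k B] [Field Ω] [Algebra ℂ Ω]
    [IsAlgClosed Ω] (t : Fin n → B) (x y : B) (hy0 : y ≠ 0) (hy : y ^ (q + 2) = evF F t x)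
    (htC : ∀ (i : Fin n) (z : ℂ), t i ≠ algebraMap ℂ B z)
    (hinj : Function.Injective (MvPolynomial.aeval t : MvPolynomial (Fin n) k →ₐ[k] B))
    (hker : ∀ P, ev2 (k := k) t x y P = 0 → (X ^ (q + 2) - C F) ∣ P)
    (hsep : (F.map (MvPolynomial.aeval t : MvPolynomial (Fin n) k →ₐ[k] B).toRingHom).Separable)
    (hfrac : ∀ b : B, ∃ P Q, ev2 (k := k) t x y Q ≠ 0 ∧
      b = ev2 (k := k) t x y P / ev2 (k := k) t x y Q)
    (σ : B →ₐ[ℂ] Ω) :
    ∃ (M : Type) (_ : Field M) (_ : Algebra Ω M) (_ : IsFF Ω M) (τ : B →+* M) (v0 : Place Ω M)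
      (f : M), (∀ z : ℂ, τ (algebraMap ℂ B z) = algebraMap Ω M (algebraMap ℂ Ω z)) ∧
        CentredAt τ v0 σ ∧ f ≠ 0 ∧ 0 < v0.ord f ∧
          ∀ v : Place Ω M, v ≠ v0 → v.ord f ≠ 0 → ∀ s : B →ₐ[ℂ] Ω, ¬ CentredAt τ v s := by
  classical
  have hcΩ : CharZero Ω := charZero_of_injective_algebraMap (algebraMap ℂ Ω).injective
  let κ : Algebra k Ω := ((σ : B →+* Ω).comp (algebraMap k B)).toAlgebra
  have κ' : IsScalarTower ℂ k Ω := IsScalarTower.of_algebraMap_eq fun z => by
    change _ = σ (algebraMap k B (algebraMap ℂ k z))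
    rw [← IsScalarTower.algebraMap_apply ℂ k B, σ.commutes]
  let σk : B →ₐ[k] Ω := { (σ : B →+* Ω) with commutes' := fun z => rfl }
  have hσk : ∀ b, σk b = σ b := fun b => rfl
  have hcomp : (MvPolynomial.aeval (fun i => σ (t i)) : MvPolynomial (Fin n) k →ₐ[k] Ω).toRingHom =
      (σ : B →+* Ω).comp (MvPolynomial.aeval t : MvPolynomial (Fin n) k →ₐ[k] B).toRingHom := by
    apply MvPolynomial.ringHom_ext
    · intro z
      simp
      rfl
    · intro i
      simp
  obtain ⟨d, xs, α, β, g, hd, hxs, hg, heq⟩ := exists_par he hne F hdeg (fun i => σ (t i)) (σ x)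
    (σ y) (by simpa using hy0) (by
      rw [← map_pow, hy]
      exact evF_map F σk t x) (by rw [hcomp, ← Polynomial.map_map]; exact hsep.map)
    (by
      rw [hcomp, ← Polynomial.map_map, Polynomial.natDegree_map_eq_of_injective (σ : B →+* Ω).injective,
        Polynomial.natDegree_map_eq_of_injective hinj]
      exact h3)
  obtain ⟨j, hj⟩ : ∃ j, d j ≠ 0 := by
    by_contra hcon
    push Not at hcon
    exact hd (funext hcon)
  have hTj : ∀ z : ℂ, σ (t j) ≠ algebraMap ℂ Ω z := by
    intro z h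
    apply htC j z
    have h1 : σ (t j) = σ (algebraMap ℂ B z) := by rw [h, σ.commutes]
    exact σ.injective h1
  -- a point of the curve which is not generic
  obtain ⟨c, hc⟩ : ∃ c : ℂ, 1 + β * ((algebraMap ℂ Ω c - σ (t j)) / d j) ≠ 0 := by
    by_cases h0 : 1 + β * ((algebraMap ℂ Ω 0 - σ (t j)) / d j) = 0
    · refine ⟨1, fun h1 => ?_⟩
      have h2 : β / d j = 0 := by
        rw [map_one] at h1
        rw [map_zero] at h0
        linear_combination h1 - h0
      have h3 : β = 0 := by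
        rcases div_eq_zero_iff.1 h2 with h3 | h3
        · exact h3
        · exact absurd h3 hj
      rw [h3, zero_mul, add_zero] at h0
      exact one_ne_zero h0
    · exact ⟨0, h0⟩
  have ha0 : (algebraMap ℂ Ω c - σ (t j)) / d j ≠ 0 :=
    div_ne_zero (sub_ne_zero.2 (hTj c).symm) hj
  obtain ⟨M, a1, a2, a3, s, w, v0, v1, f, hw, hs0, hw0, hs1, hf0, hfo, hfv⟩ :=
    exists_cyc q α β _ ha0 (Or.inr hc)
  let b1 : Algebra ℂ M := ((algebraMap Ω M).comp (algebraMap ℂ Ω)).toAlgebra
  have b2 : IsScalarTower ℂ Ω M := IsScalarTower.of_algebraMap_eq fun z => rfl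
  let b3 : Algebra k M := ((algebraMap Ω M).comp (algebraMap k Ω)).toAlgebra
  have b4 : IsScalarTower k Ω M := IsScalarTower.of_algebraMap_eq fun z => rfl
  obtain ⟨tt, htt⟩ : ∃ tt : Fin n → M, tt = fun i => algebraMap Ω M (σ (t i)) +
    algebraMap Ω M (d i) * s := ⟨_, rfl⟩
  obtain ⟨xx, hxx⟩ : ∃ xx : M, xx = Polynomial.aeval s xs := ⟨_, rfl⟩
  obtain ⟨yy, hyy⟩ : ∃ yy : M, yy = w * Polynomial.aeval s g := ⟨_, rfl⟩
  have hyy2 : yy ^ (q + 2) = evF F tt xx := by
    have h1 := congrArg (Polynomial.aeval s) heq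
    have h2 : Polynomial.aeval s (evF F (fun i => C (σ (t i)) + C (d i) * X) xs) = evF F tt xx := by
      have h4 := evF_map F ((Polynomial.aeval s : Polynomial Ω →ₐ[Ω] M).restrictScalars k)
        (fun i => C (σ (t i)) + C (d i) * X) xs
      refine h4.trans ?_
      rw [htt, hxx]
      congr 1
      funext i
      change Polynomial.aeval s (C (σ (t i)) + C (d i) * X) = _
      rw [map_add, map_mul, aeval_C, aeval_C, aeval_X]
    rw [h2] at h1
    rw [h1, hyy, mul_pow, hw]
    simp only [map_mul, map_add, map_pow, map_one, aeval_C, aeval_X]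
  have hvt : ∀ i, Val v0 (tt i) (σ (t i)) := by
    intro i
    rw [htt]
    have h1 := (Val.const (v := v0) (σ (t i))).add ((Val.const (v := v0) (d i)).mul hs0)
    rwa [mul_zero, add_zero] at h1
  have hvx : Val v0 xx (σ x) := by
    rw [hxx, ← hxs]
    exact hs0.aeval xs
  have hvy : Val v0 yy (σ y) := by
    rw [hyy, ← hg]
    have h1 := hw0.mul (hs0.aeval g)
    rwa [one_mul] at h1
  have hval : ∀ P, Val v0 (ev2 (k := k) tt xx yy P) (σ (ev2 (k := k) t x y P)) := by
    intro P
    have h1 := ev2_map σk t x y P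
    have h2 : σ (ev2 (k := k) t x y P) = σk (ev2 (k := k) t x y P) := rfl
    rw [h2, h1]
    exact val_ev2 v0 tt xx yy _ _ _ hvt hvx hvy P
  have hker2 : ∀ P, ev2 (k := k) t x y P = 0 ↔ ev2 (k := k) tt xx yy P = 0 := by
    intro P
    constructor
    · intro hP
      obtain ⟨Q, rfl⟩ := hker P hP
      have hψμ : ev2 (k := k) tt xx yy (X ^ (q + 2) - C F) = 0 := by
        refine (RingHom.map_sub (ev2 (k := k) tt xx yy) (X ^ (q + 2)) (C F)).trans ?_
        rw [map_pow, ev2_X, ev2_C, ev1_apply, hyy2, sub_self]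
      rw [map_mul, hψμ, zero_mul]
    · intro hP
      have h1 := hval P
      rw [hP] at h1
      have h2 := Val.const (v := v0) (0 : Ω)
      rw [map_zero] at h2
      have h4 := h1.unique h2
      have h5 : σ (ev2 (k := k) t x y P) = σ 0 := by rw [h4, map_zero]
      exact σ.injective h5
  obtain ⟨τ, hτ⟩ := Pool.Agent.Z15.exists_lift (B := B) (M := M)
    (W := (MvPolynomial (Fin n) k)[X][X]) (ev2 t x y) (ev2 tt xx yy) hker2 hfrac
  have hτt : ∀ i, τ (t i) = tt i := by
    intro i
    have h1 := hτ (C (C (MvPolynomial.X i)))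
    rw [ev2_C, ev2_C, ev1_C, ev1_C, MvPolynomial.aeval_X, MvPolynomial.aeval_X] at h1
    exact h1
  refine ⟨M, a1, a2, a3, τ, v0, f, fun z => ?_, ?_, hf0, hfo, fun v hv hvf s' hc' => ?_⟩
  · have h1 := hτ (C (C (MvPolynomial.C (algebraMap ℂ k z))))
    rw [ev2_C, ev2_C, ev1_C, ev1_C, MvPolynomial.aeval_C, MvPolynomial.aeval_C,
      ← IsScalarTower.algebraMap_apply ℂ k B] at h1
    rw [h1]
    change algebraMap Ω M (algebraMap k Ω (algebraMap ℂ k z)) = _
    rw [← IsScalarTower.algebraMap_apply ℂ k Ω]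
  · rw [centred_iff]
    intro b
    obtain ⟨P, Q, hQ, rfl⟩ := hfrac b
    rw [map_div₀, map_div₀, hτ, hτ]
    exact (hval P).div (hval Q) (by simpa using hQ)
  · rw [hfv v hv hvf, centred_iff] at hc'
    have h1 : Val v1 (τ (t j)) (s' (t j)) := hc' (t j)
    have h2 : Val v1 (τ (t j)) (algebraMap ℂ Ω c) := by
      rw [hτt, htt]
      have h4 := (Val.const (v := v1) (σ (t j))).add ((Val.const (v := v1) (d j)).mul hs1)
      have h5 : σ (t j) + d j * ((algebraMap ℂ Ω c - σ (t j)) / d j) = algebraMap ℂ Ω c := by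
        field_simp
        ring
      rwa [h5] at h4
    have h4 := h1.unique h2
    apply htC j c
    have h5 : s' (t j) = s' (algebraMap ℂ B c) := by rw [h4, s'.commutes]
    exact s'.injective h5

end Pool.Agent.Z15.S
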