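import Pool.Agent.Z15.S.All
import Pool.Agent.Z15.S.FinalS

/-!
# One-cycles on complete intersections with few mixed monomials

Let `k` be an algebraically closed field of characteristic `0`, for example `ℂ`. Let `V` be the
projective variety `F a = 0` (`a ∈ α`), where `F a` are forms of degrees `d a ≥ 2`, for example a smooth
complete intersection of dimension `N - r` in `ℙ^N`. Let `X` and `Y` be disjoint sets of variables, such
that each monomial of `F a` which is divisible by a variable of `Y` has degree at most `m a < d a` in the
variables of `X`; there may be further variables. We prove that the Chow groups `CH_0(V) ⊗ ℚ` and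
`CH_1(V) ⊗ ℚ` are generated by a point and a line, also over all extensions of the field `k`, if
`|X| > ∑ (d a + m a (m a + 1) / 2)` and `|Y| ≥ ∑ (d a + (d a - 1) + … + (d a - m a))`. In particular
`A_0^hom(V) = A_1^hom(V) = 0` if `V` is smooth. The number of variables which is needed is
`∑ (m a + 2) d a + 1`, for fixed `m a` it is a linear function of the degrees.

For one form with `m = 0` these are the hypersurfaces `f(x, t) + g(t, y) = 0` with `|X| ≥ d + 1`,
`|Y| ≥ d` and `t` arbitrary, `N ≥ 2 d`. This is the smallest possible `N` for which the conjecture
predicts `A_1^hom(V) = 0`.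

Cycles and rational equivalence are described in terms of function fields (`Pool.Agent.Z15.H.cyc` and
the definitions of the files `Pool/Agent/Z15/J/Chow.lean` and `Pool/Agent/Z15/S/ChowS.lean`).

The proof: through the generic point of a curve in `V` there is (over a finite extension of its
function field) a line in `V` which meets the linear subspace with coordinates in `X` in a point `z`, such
that the line through `z` and a fixed point with coordinates in `Y` is contained in `V`. So each
one-cycle is equivalent, up to torsion, to a sum of lines which meet this subspace. The lines through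
`z` with direction in a subspace which is spanned by the direction of one such line and by the
coordinate subspace of `Y` are parametrized by a complete intersection to which Roitman's theorem applies
(over the field of definition of `z`), so all these lines are equivalent to a line through `z` and a
point `u` with coordinates in `Y`. Then `z` and `u` are changed in the same way.
-/

set_option autoImplicit false

namespace Pool.Agent.Z15.S.OneCyclesFewMixedMonomials

open MvPolynomial Pool.Agent.Z15.Chow Pool.Agent.Z15.ChowS

/-- `F a` are forms of degrees `d a ≥ 2`, `X` and `Y` are disjoint sets of variables, each monomial `s` of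
`F a` which is divisible by a variable of `Y` has degree at most `m a < d a` in the variables of `X`, and
`X`, `Y` are large. -/
structure FewMixed {k : Type} [Field k] {ι α : Type} [Fintype α] (F : α → MvPolynomial ι k)
    (d m : α → ℕ) (X Y : Finset ι) : Prop where
  hom : ∀ a, (F a).IsHomogeneous (d a)
  two_le : ∀ a, 2 ≤ d a
  lt : ∀ a, m a < d a
  disj : Disjoint X Y
  mixed : ∀ a, ∀ s ∈ (F a).support, (∃ i ∈ Y, s i ≠ 0) → ∑ i ∈ X, s i ≤ m a
  cardX : ∑ a, (d a + ∑ i ∈ Finset.range (m a + 1), i) < X.card
  cardY : ∑ a, ∑ i ∈ Finset.range (m a + 1), (d a - i) ≤ Y.card

/-- `Λ 0, …, Λ s` is a basis of a linear subspace which is contained in the variety `F a = 0`. -/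
def SpanIn {k : Type} [Field k] {ι α : Type} (s : ℕ) (Λ : ℕ → ι → k)
    (F : α → MvPolynomial ι k) : Prop :=
  (LinearIndependent k fun j : Fin (s + 1) => Λ j) ∧
    ∀ (a : α) (c : Fin (s + 1) → k), eval (fun i => ∑ j, c j * Λ j i) (F a) = 0

/-- Let `F a` (`a ∈ α`) be forms of degrees `d a ≥ 2` over an algebraically closed field `k` of
characteristic `0`, and let `X`, `Y` be disjoint sets of variables such that each monomial of `F a` which
is divisible by a variable of `Y` has degree at most `m a < d a` in the variables of `X`. Assume that `X`
has more than `∑ a, (d a + (1 + … + m a))` elements and `Y` has at least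
`∑ a, (d a + (d a - 1) + … + (d a - m a))` elements. Then there are linearly independent vectors `Λ 0`, `Λ 1`
which span a line in the variety `F a = 0`, such that for every field `K ⊇ k` and `l = 0, 1`, every cycle
of dimension `l` on the variety over `K` is, in the Chow group with rational coefficients, a multiple of
the linear subspace spanned by `Λ 0, …, Λ l`. -/
theorem result (k : Type) [Field k] [IsAlgClosed k] [CharZero k] {ι α : Type} [Fintype ι] [Fintype α]
    [Nonempty α] (F : α → MvPolynomial ι k) (d m : α → ℕ) (X Y : Finset ι) (h : FewMixed F d m X Y) :
    ∃ Λ : ℕ → ι → k, SpanIn 1 Λ F ∧ ∀ (K : Type) [Field K] [Algebra k K] (l : ℕ), l ≤ 1 →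
      GeneratedBy K l (fun a => map (algebraMap k K) (F a))
        (linear K (fun i j => algebraMap k K (Λ i j)) l) := by
  obtain ⟨Λ, h1, h2, h3⟩ := Pool.Agent.Z15.S.a_MAIN k ι α F d m X Y h.hom h.two_le h.lt h.disj h.mixed
    (Nat.succ_le_of_lt h.cardX) h.cardY
  refine ⟨Λ, ⟨h1, h2⟩, fun K _ _ l hl => ?_⟩
  obtain rfl | rfl : l = 0 ∨ l = 1 := by omega
  · exact of_mult (h3 K).2
  · exact of_mult (h3 K).1

end Pool.Agent.Z15.S.OneCyclesFewMixedMonomials
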